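import Pool.Agent.Lib.MP_a8bb4d_al.MonInt

/-!
# The depth stability index of the integral closures of the powers of a monomial ideal

For every nonzero proper monomial ideal `I` of `K[X_1, …, X_r]` whose minimal monomial generators
have degree at most `d`, the function `n ↦ depth R / \overline{I^n}` is constant for
`n ≥ r d^r + 1`.
-/

set_option autoImplicit false

namespace Pool.Agent.Results.MP_a8bb4d_al.DepthStabilityBound

open MvPolynomial Pool.Agent.Lib.MP_a8bb4d_al

universe u

variable {K : Type u} [Field K] {r : ℕ}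

/-- `I` is a monomial ideal: it is generated by monomials. -/
def IsMonomialIdeal (I : Ideal (MvPolynomial (Fin r) K)) : Prop :=
  ∃ S : Set (Fin r →₀ ℕ), I = Ideal.span ((fun α => monomial α (1 : K)) '' S)

/-- The degrees of the minimal monomial generators of `I`: the total degrees of the exponents `α`
that are minimal (componentwise) among the exponents of the monomials in `I`. -/
def genDegrees (I : Ideal (MvPolynomial (Fin r) K)) : Set ℕ :=
  {m | ∃ α : Fin r →₀ ℕ, Minimal (fun β => monomial β (1 : K) ∈ I) α ∧ ∑ i, α i = m}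

/-- The depth of `R ⧸ J` with respect to the ideal `(X_1, …, X_r)`: the supremum of the lengths of
the `R ⧸ J`-regular sequences in that ideal. -/
noncomputable def depthQuot (J : Ideal (MvPolynomial (Fin r) K)) : ℕ∞ :=
  ⨆ (rs : List (MvPolynomial (Fin r) K))
    (_ : (∀ x ∈ rs, x ∈ Ideal.span (Set.range X)) ∧
      RingTheory.Sequence.IsRegular (MvPolynomial (Fin r) K ⧸ J) rs), (rs.length : ℕ∞)

/-- The indices `s ≥ 1` from which on the depth of `R ⧸ \overline{I^n}` is constant. -/
def stableFrom (I : Ideal (MvPolynomial (Fin r) K)) : Set ℕ :=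
  {s | 1 ≤ s ∧ ∀ n, s ≤ n → depthQuot (intClosure (I ^ n)) = depthQuot (intClosure (I ^ s))}

theorem depthQuot_eq {J : Ideal (MvPolynomial (Fin r) K)} (hJ : J ≤ irr K r) {D : ℕ}
    (h1 : DGE (irr K r) (MvPolynomial (Fin r) K ⧸ J) D)
    (h2 : ¬ DGE (irr K r) (MvPolynomial (Fin r) K ⧸ J) (D + 1)) : depthQuot J = D := by
  have hlt := irr_smul_quot_lt' hJ
  apply le_antisymm
  · apply iSup₂_le
    rintro rs ⟨hrs, hreg⟩
    by_contra hcon
    rw [not_le] at hcon
    have h3 : D < rs.length := by exact_mod_cast hcon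
    apply h2
    have h4 := (DGE_iff_exists_isRegular hlt rs.length).mpr ⟨rs, rfl, hrs, hreg⟩
    exact h4.mono h3
  · obtain ⟨rs, hlen, hrs, hreg⟩ := (DGE_iff_exists_isRegular hlt D).mp h1
    rw [← hlen]
    exact le_iSup₂ (f := fun (rs : List (MvPolynomial (Fin r) K))
      (_ : (∀ x ∈ rs, x ∈ Ideal.span (Set.range X)) ∧
        RingTheory.Sequence.IsRegular (MvPolynomial (Fin r) K ⧸ J) rs) => (rs.length : ℕ∞))
      rs ⟨hrs, hreg⟩

/-- The minimal exponents generate. -/
theorem span_minimal {I : Ideal (MvPolynomial (Fin r) K)} (hI : IsMonomialIdeal I) :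
    I = Ideal.span ((fun α => monomial α (1 : K)) ''
      {α : Fin r →₀ ℕ | Minimal (fun β => monomial β (1 : K) ∈ I) α}) := by
  apply le_antisymm
  · obtain ⟨S, hS⟩ := hI
    conv_lhs => rw [hS]
    rw [Ideal.span_le]
    rintro _ ⟨α, hα, rfl⟩
    have hmem : (monomial α (1 : K)) ∈ I := by
      rw [hS]
      exact Ideal.subset_span ⟨α, hα, rfl⟩
    obtain ⟨β, hle, hβ⟩ := (Set.isPWO_of_wellQuasiOrderedLE
      {β : Fin r →₀ ℕ | monomial β (1 : K) ∈ I}).exists_le_minimal (a := α) hmem
    have h1 : (monomial α (1 : K)) = monomial (α - β) 1 * monomial β 1 := by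
      rw [monomial_mul, one_mul, tsub_add_cancel_of_le hle]
    rw [SetLike.mem_coe]
    simp only
    rw [h1]
    apply Ideal.mul_mem_left
    exact Ideal.subset_span ⟨β, hβ, rfl⟩
  · rw [Ideal.span_le]
    rintro _ ⟨α, hα, rfl⟩
    exact hα.1

theorem finite_minimal (I : Ideal (MvPolynomial (Fin r) K)) :
    {α : Fin r →₀ ℕ | Minimal (fun β => monomial β (1 : K) ∈ I) α}.Finite :=
  (setOfPred_minimal_antichain _).finite_of_partiallyWellOrderedOn
    (Set.isPWO_of_wellQuasiOrderedLE _)

/-- **Main theorem.** For every nonzero proper monomial ideal `I` of `K[X_1, …, X_r]`, with `d` the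
maximal degree of a minimal monomial generator and `s` the depth stability index of the integral
closures of the powers of `I`, one has `s ≤ r d^r + 1`, hence `s ≤ (r + 1) d^r`. -/
theorem result (r : ℕ) (K : Type u) [Field K] (I : Ideal (MvPolynomial (Fin r) K))
    (hI : IsMonomialIdeal I) (hbot : I ≠ ⊥) (htop : I ≠ ⊤) :
    ∃ d s : ℕ, IsGreatest (genDegrees I) d ∧ IsLeast (stableFrom I) s ∧
      s ≤ r * d ^ r + 1 ∧ s ≤ (r + 1) * d ^ r := by
  classical
  obtain ⟨G, hG⟩ : ∃ G : Finset (Fin r →₀ ℕ),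
      (G : Set (Fin r →₀ ℕ)) = {α | Minimal (fun β => monomial β (1 : K) ∈ I) α} :=
    ⟨(finite_minimal I).toFinset, (finite_minimal I).coe_toFinset⟩
  have hspan : I = Ideal.span ((fun v => monomial v (1 : K)) '' (G : Set (Fin r →₀ ℕ))) := by
    rw [hG]
    exact span_minimal hI
  have hGne : G.Nonempty := by
    rw [Finset.nonempty_iff_ne_empty]
    rintro rfl
    apply hbot
    rw [hspan]
    simp
  have hmin : ∀ v ∈ G, Minimal (fun β => monomial β (1 : K) ∈ I) v := by
    intro v hv
    have : v ∈ (G : Set (Fin r →₀ ℕ)) := hv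
    rw [hG] at this
    exact this
  have hG0 : ∀ v ∈ G, v ≠ 0 := by
    rintro v hv rfl
    apply htop
    rw [Ideal.eq_top_iff_one]
    exact (hmin 0 hv).1
  obtain ⟨v₀, hv₀, hmax⟩ := Finset.exists_max_image G (fun v => ∑ i, v i) hGne
  set d : ℕ := ∑ i, v₀ i with hd
  have hgreat : IsGreatest (genDegrees I) d := by
    constructor
    · exact ⟨v₀, hmin v₀ hv₀, rfl⟩
    · rintro m ⟨α, hα, rfl⟩
      have : α ∈ (G : Set (Fin r →₀ ℕ)) := by
        rw [hG]
        exact hα
      exact hmax α this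
  have hd1 : 1 ≤ d := by
    have h1 : ∃ i, v₀ i ≠ 0 := by
      by_contra hcon
      push Not at hcon
      exact hG0 v₀ hv₀ (Finsupp.ext hcon)
    obtain ⟨i, hi⟩ := h1
    have h2 : v₀ i ≤ ∑ i, v₀ i :=
      Finset.single_le_sum (f := fun i => v₀ i) (fun _ _ => Nat.zero_le _) (Finset.mem_univ i)
    omega
  have hdeg : ∀ v ∈ G, ∑ i, v i ≤ d := hmax
  obtain ⟨D, hlow, hup⟩ := depth_main K hd1 hGne hdeg hG0
  -- the integral closures are proper
  have hIw : I ≤ ordIdeal K (fun _ => 1) 1 := by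
    conv_lhs => rw [hspan]
    rw [Ideal.span_le]
    rintro _ ⟨v, hv, rfl⟩
    rw [SetLike.mem_coe, mem_ordIdeal]
    intro β hβ
    have h2 := support_monomial_subset hβ
    rw [Finset.mem_singleton] at h2
    rw [h2]
    obtain ⟨i, hi⟩ : ∃ i, v i ≠ 0 := by
      by_contra hcon
      push Not at hcon
      exact hG0 v hv (Finsupp.ext hcon)
    have h3 : v i ≤ ∑ i, v i :=
      Finset.single_le_sum (f := fun i => v i) (fun _ _ => Nat.zero_le _) (Finset.mem_univ i)
    unfold wt
    simp only [one_mul]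
    omega
  have hJ : ∀ n, 1 ≤ n → intClosure (I ^ n) ≤ irr K r := by
    intro n hn
    have h1 : I ^ n ≤ ordIdeal K (fun _ => 1) 1 := (Ideal.pow_le_self (by omega)).trans hIw
    refine (intClosure_le_ordIdeal h1).trans (restrictSupportIdeal_le_irr _ ?_)
    simp [wt]
  have hdepth : ∀ n, r * d ^ r + 1 ≤ n → depthQuot (intClosure (I ^ n)) = D := by
    intro n hn
    have hn1 : 1 ≤ n := by omega
    have h1 := hlow n hn1
    have h2 := hup n hn
    rw [← intClosure_pow_eq hspan hd1 hdeg hn1] at h1 h2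
    exact depthQuot_eq (hJ n hn1) h1 h2
  have hs₀ : r * d ^ r + 1 ∈ stableFrom I := by
    refine ⟨Nat.le_add_left _ _, ?_⟩
    intro n hn
    rw [hdepth n hn, hdepth _ le_rfl]
  have hex : ∃ s, s ∈ stableFrom I := ⟨_, hs₀⟩
  refine ⟨d, Nat.find hex, hgreat, ⟨Nat.find_spec hex, fun s hs => Nat.find_min' hex hs⟩,
    Nat.find_min' hex hs₀, (Nat.find_min' hex hs₀).trans ?_⟩
  have h1 : 1 ≤ d ^ r := Nat.one_le_pow _ _ hd1
  calc r * d ^ r + 1 ≤ r * d ^ r + d ^ r := Nat.add_le_add_left h1 _
    _ = (r + 1) * d ^ r := by ring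

end Pool.Agent.Results.MP_a8bb4d_al.DepthStabilityBound
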